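import Mathlib
import Pool.Agent.Helper36.BaseSize.Final

set_option autoImplicit false

namespace Pool.Agent.Results.MP_2beb52_al.BaseSizeGap

open Pool.Agent.Helper36.BaseSize

/-- There is a nontrivial finite group (of order 80) whose base size set is `{1, 2, 4}`; in
particular the set is not of the form `{1, 2, ..., k}`. -/
theorem result :
    ∃ (G : Type) (_ : Group G), Finite G ∧ Nontrivial G ∧ baseSizeSet G = {1, 2, 4} ∧
      ∀ k : ℕ, baseSizeSet G ≠ Set.Icc 1 k := by
  refine ⟨HH, inferInstance, inferInstance, HH_nontrivial, baseSizeSet_HH, ?_⟩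
  intro k hk
  rw [baseSizeSet_HH] at hk
  have h4 : (4 : ℕ) ∈ Set.Icc 1 k := by rw [← hk]; simp
  have h3 : (3 : ℕ) ∈ ({1, 2, 4} : Set ℕ) := by
    rw [hk]
    exact ⟨by norm_num, by have := h4.2; omega⟩
  simp at h3

end Pool.Agent.Results.MP_2beb52_al.BaseSizeGap
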