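import Mathlib
import Pool.Agent.Helper85.DetSet.NoFour
import Pool.Agent.Helper85.DetSet.Five

set_option autoImplicit false

/-!
# A gap in the determining set of a finite group

The group is the wreath product `C_2 wr C_5` of order 160. It is the automorphism group of a graph
with 20 vertices and base size 5 (`Helper85/DetSet/Five.lean`), but not of a graph with base size 4
(`Helper85/DetSet/NoFour.lean`).
-/

namespace Pool.Agent.Results.MP_2beb52_al.DeterminingSetGap

open Pool.Agent.Helper85.DetSet

/-- There is a nontrivial finite group whose determining set contains 5 but not 4; in particular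
the set is not of the form `{1, 2, ..., k}`. -/
theorem result :
    ∃ (G : Type) (_ : Group G), Finite G ∧ Nontrivial G ∧
      5 ∈ determiningSet G ∧ 4 ∉ determiningSet G ∧
      ∀ k : ℕ, determiningSet G ≠ Set.Icc 1 k := by
  have h4 : 4 ∉ determiningSet WW := by
    rintro ⟨V, _, Γ, ⟨e⟩, h⟩
    exact not_four e h
  refine ⟨WW, inferInstance, inferInstance, ⟨⟨1, io e0, fun h => ?_⟩⟩, five_mem, h4,
    fun k hk => h4 ?_⟩
  · have h1 := congrFun (io_inj h.symm) 0
    exact absurd h1 (by decide)
  · have h5 : (5 : ℕ) ∈ Set.Icc 1 k := by rw [← hk]; exact five_mem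
    rw [hk]
    exact ⟨by norm_num, by have := h5.2; omega⟩

end Pool.Agent.Results.MP_2beb52_al.DeterminingSetGap
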